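import Pool.Agent.H20.Tpf.Main
import Pool.Agent.H20.Tpf.TreeDec
import Pool.Agent.H20.Tpf.Family

/-!
# Treedepth of `P_t`-free graphs of bounded treewidth (MP_04d34b_co)

`h(k,t) = Θ(k ^ ⌊(t-1)/2⌋)` for every fixed `t ≥ 2`.
-/

set_option autoImplicit false

namespace Pool.Agent.Results.MP_04d34b_co.TreedepthPathFree

open Finset Pool.Agent.H20.Tpf

/-- `tw(G) ≤ k`: there is a tree `T` on `Fin n` and there are bags `B t` such that every vertex and
every edge is in a bag, the nodes whose bags contain a given vertex induce a connected subgraph of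
`T`, and all bags have at most `k + 1` elements -/
def TreewidthLE {V : Type} (G : SimpleGraph V) (k : ℕ) : Prop :=
  ∃ (n : ℕ) (T : SimpleGraph (Fin n)) (B : Fin n → Finset V), T.IsTree ∧ (∀ v : V, ∃ t, v ∈ B t) ∧
    (∀ u v : V, G.Adj u v → ∃ t, u ∈ B t ∧ v ∈ B t) ∧
    (∀ v : V, (T.induce {t : Fin n | v ∈ B t}).Connected) ∧ ∀ t, (B t).card ≤ k + 1

/-- `le` is the ancestor-or-equal relation of a rooted forest on `V` and every edge of `G` joins a
vertex to one of its ancestors -/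
def IsEliminationForest {V : Type} (G : SimpleGraph V) (le : V → V → Prop) : Prop :=
  (∀ a, le a a) ∧ (∀ a b c, le a b → le b c → le a c) ∧ (∀ a b, le a b → le b a → a = b) ∧
    (∀ a b c, le a c → le b c → le a b ∨ le b a) ∧ ∀ a b, G.Adj a b → le a b ∨ le b a

/-- the treedepth: the least height of such a rooted forest -/
noncomputable def treedepth {V : Type} (G : SimpleGraph V) : ℕ :=
  sInf {d | ∃ le : V → V → Prop, IsEliminationForest G le ∧ ∀ v, {u | le u v}.ncard ≤ d}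

/-- the treedepths of the finite `P_t`-free graphs of treewidth at most `k` -/
def values (k t : ℕ) : Set ℕ :=
  {d | ∃ (V : Type) (_ : Finite V) (G : SimpleGraph V), TreewidthLE G k ∧
    IsEmpty (SimpleGraph.pathGraph t ↪g G) ∧ treedepth G = d}

/-- `h(k,t)` -/
noncomputable def h (k t : ℕ) : ℕ := sSup (values k t)

lemma treedepth_le {V : Type} {G : SimpleGraph V} {d : ℕ} {le : V → V → Prop}
    (h1 : IsEliminationForest G le) (h2 : ∀ v, {u | le u v}.ncard ≤ d) : treedepth G ≤ d :=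
  Nat.sInf_le ⟨le, h1, h2⟩

lemma le_treedepth {V : Type} [Finite V] {G : SimpleGraph V} {d : ℕ}
    (hd : ∀ le : V → V → Prop, IsEliminationForest G le → ∃ v, d ≤ {u | le u v}.ncard) :
    d ≤ treedepth G := by
  classical
  have hne : {d | ∃ le : V → V → Prop, IsEliminationForest G le ∧
      ∀ v, {u | le u v}.ncard ≤ d}.Nonempty := by
    obtain ⟨n, ⟨e⟩⟩ := Finite.exists_equiv_fin V
    refine ⟨Nat.card V, fun a b => e a ≤ e b, ⟨fun a => le_rfl, fun a b c => le_trans,
      fun a b h1 h2 => e.injective (le_antisymm h1 h2), fun a b c _ _ => le_total _ _,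
      fun a b _ => le_total _ _⟩, fun v => ?_⟩
    rw [← Set.ncard_univ]
    exact Set.ncard_le_ncard (Set.subset_univ _)
  obtain ⟨le, h1, h2⟩ := Nat.sInf_mem hne
  obtain ⟨v, hv⟩ := hd le h1
  exact hv.trans (h2 v)

lemma free_mono {V : Type} {G : SimpleGraph V} {s t : ℕ} (hst : s ≤ t)
    (h : IsEmpty (SimpleGraph.pathGraph s ↪g G)) : IsEmpty (SimpleGraph.pathGraph t ↪g G) := by
  refine ⟨fun φ => h.false ?_⟩
  refine ⟨⟨fun i => φ (Fin.castLE hst i), ?_⟩, ?_⟩
  · intro i j hij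
    exact Fin.castLE_injective hst (φ.injective hij)
  · intro i j
    change G.Adj (φ (Fin.castLE hst i)) (φ (Fin.castLE hst j)) ↔ _
    rw [φ.map_adj_iff, SimpleGraph.pathGraph_adj, SimpleGraph.pathGraph_adj]
    simp

/-- the constant of the upper bound -/
def UC (p : ℕ) : ℕ := (6 * p + 5) * 4 ^ (p - 1) + 4 ^ p + (6 * p + 3)

lemma arith {k p : ℕ} (hk : 1 ≤ k) (hp : 1 ≤ p) :
    CB k p ((2 * k + 1) * (2 * p + 1)) + (2 * k + 1) * (2 * p + 1) ≤ UC p * k ^ p := by
  obtain ⟨q, rfl⟩ : ∃ q, p = q + 1 := ⟨p - 1, by omega⟩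
  have h1 : (2 * k + 1 + q).choose q ≤ (4 * k) ^ q :=
    (Nat.choose_add_le_add_one_pow (2 * k + 1) q).trans (Nat.pow_le_pow_left (by omega) q)
  have h2 : (2 * k + 1 + (q + 1)).choose (q + 1) ≤ (4 * k) ^ (q + 1) :=
    (Nat.choose_add_le_add_one_pow (2 * k + 1) (q + 1)).trans (Nat.pow_le_pow_left (by omega) _)
  have h3 : (2 * k + 1) * (2 * (q + 1) + 1) ≤ (6 * (q + 1) + 3) * k := by nlinarith
  have h4 : (2 * k + 1) * (2 * (q + 1) + 1) + (k + 1) ≤ (6 * (q + 1) + 5) * k := by nlinarith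
  have h5 : k ≤ k ^ (q + 1) := by
    calc k = k ^ 1 := (pow_one k).symm
      _ ≤ k ^ (q + 1) := Nat.pow_le_pow_right hk (by omega)
  rw [CB, UC]
  simp only [Nat.add_sub_cancel]
  calc _ ≤ (6 * (q + 1) + 5) * k * (4 * k) ^ q + (4 * k) ^ (q + 1) + (6 * (q + 1) + 3) * k :=
        Nat.add_le_add (Nat.add_le_add (Nat.mul_le_mul h4 h1) h2) h3
    _ ≤ (6 * (q + 1) + 5) * k * (4 * k) ^ q + (4 * k) ^ (q + 1) + (6 * (q + 1) + 3) * k ^ (q + 1) :=
        Nat.add_le_add_left (Nat.mul_le_mul_left _ h5) _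
    _ = _ := by
        rw [mul_pow, mul_pow]
        ring

theorem upper {V : Type} [Finite V] {G : SimpleGraph V} {k t : ℕ} (ht : 2 ≤ t) (hk : 1 ≤ k)
    (htw : TreewidthLE G k) (hf : IsEmpty (SimpleGraph.pathGraph t ↪g G)) :
    treedepth G ≤ (UC ((t - 1) / 2) + 1) * k ^ ((t - 1) / 2) := by
  classical
  have := Fintype.ofFinite V
  rcases Nat.lt_or_ge t 3 with h | h
  · have h2 : t = 2 := by omega
    subst h2
    have hno : ∀ a b, ¬ G.Adj a b := by
      intro a b hab
      refine hf.false ⟨⟨fun i => if i = 0 then a else b, ?_⟩, ?_⟩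
      · intro i j hij
        fin_cases i <;> fin_cases j <;> simp at hij ⊢
        · exact absurd hij hab.ne
        · exact absurd hij hab.ne'
      · intro i j
        fin_cases i <;> fin_cases j <;> simp [SimpleGraph.pathGraph_adj, hab, hab.symm]
    have h3 : treedepth G ≤ 1 := by
      refine treedepth_le (le := Eq) ⟨fun _ => rfl, fun _ _ _ => Eq.trans, fun _ _ h _ => h,
        fun a b c h1 h2 => Or.inl (h1.trans h2.symm), fun a b hab => absurd hab (hno a b)⟩ ?_
      intro v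
      simp
    refine h3.trans ?_
    simp
  · have h1 := td_univ (m := (t - 1) / 2) (k := k) (G := G) (by omega)
      (free_mono (by omega) hf) (HasTW.tw htw)
    obtain ⟨le, h2, h3⟩ := h1.forest
    refine (treedepth_le h2 h3).trans ((arith hk (by omega)).trans ?_)
    exact Nat.mul_le_mul_right _ (by omega)

theorem lower {k t : ℕ} (ht : 2 ≤ t) : ∃ (V : Type) (_ : Finite V) (G : SimpleGraph V),
    TreewidthLE G k ∧ IsEmpty (SimpleGraph.pathGraph t ↪g G) ∧
      (k + (t - 1) / 2).choose ((t - 1) / 2) ≤ treedepth G := by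
  rcases Nat.lt_or_ge t 3 with h | h
  · have h2 : t = 2 := by omega
    subst h2
    refine ⟨Fin 1, inferInstance, ⊥, ?_, ?_, ?_⟩
    · exact ⟨1, ⊥, fun _ => univ, .of_subsingleton, fun v => ⟨0, mem_univ _⟩,
        fun u v h => h.elim, fun v => by
          have hne : Nonempty {t : Fin 1 | v ∈ (univ : Finset (Fin 1))} :=
            ⟨⟨0, show v ∈ univ from mem_univ _⟩⟩
          exact .of_subsingleton, fun t => by simp⟩
    · refine ⟨fun φ => ?_⟩
      have := φ.injective (Subsingleton.elim (φ 0) (φ 1))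
      simp at this
    · refine le_treedepth ?_
      rintro le ⟨h1, _⟩
      refine ⟨0, ?_⟩
      simp only [show (2 - 1) / 2 = 0 from rfl, Nat.choose_zero_right]
      have : {u | le u 0} = {0} := by
        ext u
        simp [Subsingleton.elim u 0, h1]
      rw [this, Set.ncard_singleton]
  · obtain ⟨V, hV, G, h1, h2, h3⟩ := family ((t - 3) / 2) k
    refine ⟨V, hV, G, h2, free_mono (by omega) h1, le_treedepth ?_⟩
    have h4 : (t - 1) / 2 = (t - 3) / 2 + 1 := by omega
    rw [h4, ← add_assoc]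
    exact h3

/-- for every `t ≥ 2` the maximum `h(k,t)` exists and `h(k,t) = Θ(k ^ ⌊(t-1)/2⌋)` -/
theorem result (t : ℕ) (ht : 2 ≤ t) : ∃ c C : ℝ, 0 < c ∧ 0 < C ∧ ∀ k : ℕ, 1 ≤ k →
    IsGreatest (values k t) (h k t) ∧
    c * (k : ℝ) ^ ((t - 1) / 2) ≤ (h k t : ℝ) ∧ (h k t : ℝ) ≤ C * (k : ℝ) ^ ((t - 1) / 2) := by
  set p := (t - 1) / 2 with hp
  refine ⟨1 / (p.factorial : ℝ), (UC p + 1 : ℕ), by positivity, by positivity, fun k hk => ?_⟩
  obtain ⟨V, hV, G, h1, h2, h3⟩ := lower (k := k) ht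
  have hne : (values k t).Nonempty := ⟨_, V, hV, G, h1, h2, rfl⟩
  have hbd : ∀ d ∈ values k t, d ≤ (UC p + 1) * k ^ p := by
    rintro d ⟨W, hW, H, g1, g2, rfl⟩
    exact upper ht hk g1 g2
  have hbdd : BddAbove (values k t) := ⟨_, hbd⟩
  refine ⟨⟨Nat.sSup_mem hne hbdd, fun d hd => le_csSup hbdd hd⟩, ?_, ?_⟩
  · have h4 : treedepth G ≤ h k t := le_csSup hbdd ⟨V, hV, G, h1, h2, rfl⟩
    have h5 := Nat.pow_le_choose (α := ℝ) p (k + p)
    have h6 : (k + p + 1 - p : ℕ) = k + 1 := by omega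
    rw [h6] at h5
    calc 1 / (p.factorial : ℝ) * (k : ℝ) ^ p = (k : ℝ) ^ p / (p.factorial : ℝ) := by ring
      _ ≤ ((k + 1 : ℕ) : ℝ) ^ p / (p.factorial : ℝ) := by
          push_cast
          gcongr
          linarith
      _ ≤ ((k + p).choose p : ℝ) := by exact_mod_cast h5
      _ ≤ (h k t : ℝ) := by exact_mod_cast h3.trans h4
  · exact_mod_cast hbd _ (Nat.sSup_mem hne hbdd)

end Pool.Agent.Results.MP_04d34b_co.TreedepthPathFree
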